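import Mathlib

namespace Pool.Agent.Results.MP_72856e_co.OddCycleCounterexample

open SimpleGraph

/-- `D` is dominating: every vertex not in `D` is adjacent to some vertex of `D`. -/
def IsDominating {V : Type} (G : SimpleGraph V) (D : Finset V) : Prop :=
  ∀ v, v ∉ D → ∃ u ∈ D, G.Adj v u

/-- The domatic number `d(G)`: the largest number of parts of a partition of the vertex set
into dominating sets. -/
noncomputable def domaticNumber {V : Type} [Fintype V] [DecidableEq V] (G : SimpleGraph V) : ℕ :=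
  sSup {k | ∃ P : Finpartition (Finset.univ : Finset V),
    P.parts.card = k ∧ ∀ D ∈ P.parts, IsDominating G D}

/-- `c(G)`: the least number of vertices of a maximal complete subgraph. -/
noncomputable def minCliqueOrder {V : Type} (G : SimpleGraph V) : ℕ :=
  sInf {k | ∃ s : Set V, Maximal G.IsClique s ∧ s.ncard = k}

/-- The clique graph `K(G)`: its vertices are the maximal complete subgraphs, two distinct ones
being adjacent when they have a vertex in common. -/
def cliqueGraph {V : Type} (G : SimpleGraph V) :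
    SimpleGraph {s : Set V // Maximal G.IsClique s} where
  Adj s t := s ≠ t ∧ (s.1 ∩ t.1).Nonempty
  symm := ⟨fun _ _ h => ⟨h.1.symm, by rw [Set.inter_comm]; exact h.2⟩⟩
  loopless := ⟨fun _ h => h.1 rfl⟩

/-- Membership of vertex `v` in the `j`-th clique of the example. -/
def inQ (j : Fin 5) (v : Fin 20) : Bool :=
  v.1 / 4 == j.1 || (v.1 % 4 != 0 && (v.1 / 4 + 1) % 5 == j.1)

/-- The example graph. -/
def exG : SimpleGraph (Fin 20) where
  Adj u v := u ≠ v ∧ ∃ j : Fin 5, inQ j u = true ∧ inQ j v = true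
  symm := ⟨fun _ _ h => ⟨h.1.symm, h.2.imp fun _ h' => h'.symm⟩⟩
  loopless := ⟨fun _ h => h.1 rfl⟩

instance : DecidableRel exG.Adj := fun u v =>
  inferInstanceAs (Decidable (u ≠ v ∧ ∃ j : Fin 5, inQ j u = true ∧ inQ j v = true))

def Q (j : Fin 5) : Set (Fin 20) := {v | inQ j v = true}

lemma Q_clique (j : Fin 5) : exG.IsClique (Q j) :=
  fun _ hu _ hv huv => ⟨huv, j, hu, hv⟩

lemma nbhd : ∀ v : Fin 20, ∃ j : Fin 5, ∀ u : Fin 20,
    (u = v ∨ exG.Adj v u) → (inQ j u = true ∨ inQ (j + 1) u = true) := by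
  decide +kernel

lemma far : ∀ j : Fin 5, ∀ u w : Fin 20, inQ j u = false → inQ (j + 1) u = true →
    inQ j w = true → inQ (j + 1) w = false → u ≠ w ∧ ¬ exG.Adj u w := by
  decide +kernel

lemma clique_sub {s : Set (Fin 20)} (hs : exG.IsClique s) : ∃ j, s ⊆ Q j := by
  rcases s.eq_empty_or_nonempty with rfl | ⟨v, hv⟩
  · exact ⟨0, Set.empty_subset _⟩
  obtain ⟨j, hj⟩ := nbhd v
  have hall : ∀ u ∈ s, inQ j u = true ∨ inQ (j + 1) u = true := by
    intro u hu
    apply hj
    by_cases h : u = v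
    · exact Or.inl h
    · exact Or.inr (hs hv hu (Ne.symm h))
  by_cases h : s ⊆ Q j
  · exact ⟨j, h⟩
  refine ⟨j + 1, fun w hw => ?_⟩
  obtain ⟨u, hu, hu'⟩ := Set.not_subset.1 h
  have h1 : inQ j u = false := by simpa [Q] using hu'
  have h2 : inQ (j + 1) u = true := by
    rcases hall u hu with h | h
    · rw [h1] at h; exact absurd h (by decide)
    · exact h
  by_contra hc
  have h4 : inQ (j + 1) w = false := by simpa [Q] using hc
  have h3 : inQ j w = true := by
    rcases hall w hw with h | h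
    · exact h
    · rw [h4] at h; exact absurd h (by decide)
  obtain ⟨hne, hna⟩ := far j u w h1 h2 h3 h4
  exact hna (hs hu hw hne)

lemma Q_sub : ∀ i j : Fin 5, (∀ v : Fin 20, inQ i v = true → inQ j v = true) → i = j := by
  decide +kernel

lemma Q_max (j : Fin 5) : Maximal exG.IsClique (Q j) := by
  refine ⟨Q_clique j, fun t ht hjt => ?_⟩
  obtain ⟨k, hk⟩ := clique_sub ht
  have : j = k := Q_sub j k fun v hv => hk (hjt hv)
  subst this
  exact hk

lemma max_iff {s : Set (Fin 20)} (hs : Maximal exG.IsClique s) : ∃ j, s = Q j := by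
  obtain ⟨j, hj⟩ := clique_sub hs.1
  exact ⟨j, Set.Subset.antisymm hj (hs.2 (Q_clique j) hj)⟩

lemma Q_inj {i j : Fin 5} (h : Q i = Q j) : i = j :=
  Q_sub i j fun v hv => by
    have : v ∈ Q i := hv
    rw [h] at this
    exact this

lemma Q_meet : ∀ i j : Fin 5,
    (i ≠ j ∧ ∃ v : Fin 20, inQ i v = true ∧ inQ j v = true) ↔ (cycleGraph 5).Adj i j := by
  decide +kernel

noncomputable def qEquiv : Fin 5 ≃ {s : Set (Fin 20) // Maximal exG.IsClique s} :=
  Equiv.ofBijective (fun j => ⟨Q j, Q_max j⟩)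
    ⟨fun _ _ h => Q_inj (congrArg Subtype.val h), fun s => by
      obtain ⟨j, hj⟩ := max_iff s.2
      exact ⟨j, Subtype.ext hj.symm⟩⟩

noncomputable def qIso : cycleGraph 5 ≃g cliqueGraph exG where
  toEquiv := qEquiv
  map_rel_iff' := by
    intro i j
    rw [← Q_meet]
    constructor
    · rintro ⟨h1, v, hv⟩
      exact ⟨fun h => h1 (by rw [h]), v, hv⟩
    · rintro ⟨h1, v, hv⟩
      exact ⟨fun h => h1 (qEquiv.injective h), v, hv⟩

lemma Q_card (j : Fin 5) : (Q j).ncard = 7 := by
  have h : ∀ j : Fin 5, (Finset.univ.filter fun v : Fin 20 => inQ j v = true).card = 7 := by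
    decide +kernel
  rw [← h j, ← Set.ncard_coe_finset]
  congr 1
  ext v
  simp [Q]

lemma two_not_dom : ∀ x y : Fin 20, ∃ v : Fin 20,
    v ≠ x ∧ v ≠ y ∧ ¬ exG.Adj v x ∧ ¬ exG.Adj v y := by
  decide +kernel

lemma dom_card {D : Finset (Fin 20)} (hD : IsDominating exG D) : 3 ≤ D.card := by
  by_contra hlt
  have hle : D.card ≤ 2 := by omega
  obtain ⟨T, hDT, -, hT⟩ := Finset.exists_subsuperset_card_eq (Finset.subset_univ D) hle
    (by simp)
  obtain ⟨x, y, -, rfl⟩ := Finset.card_eq_two.1 hT
  obtain ⟨v, hx, hy, hax, hay⟩ := two_not_dom x y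
  have hv : v ∉ D := fun h => by
    have := hDT h
    simp [hx, hy] at this
  obtain ⟨u, hu, huv⟩ := hD v hv
  have := hDT hu
  simp only [Finset.mem_insert, Finset.mem_singleton] at this
  rcases this with rfl | rfl
  · exact hax huv
  · exact hay huv

lemma domatic_le : domaticNumber exG ≤ 6 := by
  apply csSup_le'
  rintro k ⟨P, rfl, hP⟩
  have h1 := P.sum_card_parts
  have h2 : P.parts.card * 3 ≤ ∑ D ∈ P.parts, D.card := by
    rw [← smul_eq_mul]
    exact Finset.card_nsmul_le_sum _ _ _ fun D hD => dom_card (hP D hD)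
  rw [h1] at h2
  simp at h2
  omega

lemma minClique_eq : minCliqueOrder exG = 7 := by
  have : {k | ∃ s : Set (Fin 20), Maximal exG.IsClique s ∧ s.ncard = k} = {7} := by
    ext k
    constructor
    · rintro ⟨s, hs, rfl⟩
      obtain ⟨j, rfl⟩ := max_iff hs
      exact Q_card j
    · rintro rfl
      exact ⟨Q 0, Q_max 0, Q_card 0⟩
  rw [minCliqueOrder, this, csInf_singleton]

/-- A graph whose clique graph is an odd cycle and whose domatic number is smaller than the
order of its smallest clique. -/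
theorem result : ∃ (V : Type) (_ : Fintype V) (_ : DecidableEq V) (G : SimpleGraph V) (n : ℕ),
    Odd n ∧ 3 ≤ n ∧ Nonempty (cliqueGraph G ≃g cycleGraph n) ∧
      domaticNumber G < minCliqueOrder G :=
  ⟨Fin 20, inferInstance, inferInstance, exG, 5, by decide, by decide, ⟨qIso.symm⟩, by
    rw [minClique_eq]
    exact Nat.lt_succ_of_le domatic_le⟩

end Pool.Agent.Results.MP_72856e_co.OddCycleCounterexample
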